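import Pool.Agent.Helper42.GW.GZ
import Pool.Agent.Helper11.GW.wMisc
import Pool.Agent.Helper44.GW.wMark
import Pool.Agent.Helper69.GW.wAdd
import Pool.Agent.Helper7.GW.wRot
import Pool.Agent.Helper81.GW.wRel
import Pool.Agent.Helper82.GW.wZip

/-!
# Gilbert-Pollak, chapter COR: the rules START, GZ, FIN, assembled
-/

set_option autoImplicit false

namespace Pool.Agent.Helper42.GW

open Pool.Agent.Helper18.GP Pool.Agent.Helper62.GP

/-- the three rules from `stAdd`, `stZip` and the facts on angles -/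
theorem rules_of (hMet : stMet) (hLn : stLnP) (hAdd : stAdd) (hZip : stZip) (h2 : stAnAdd2)
    (hS : stAnSign) : stSTART ∧ stGZ ∧ stFIN := by
  have hRel : wRel := Pool.Agent.Helper81.GW.wRel_thm hMet hLn
  have hRot : wRot := Pool.Agent.Helper7.GW.wRot_thm hRel
  have hA : wAdd := Pool.Agent.Helper69.GW.wAdd_thm hRel hAdd
  have hZ : wZip := Pool.Agent.Helper82.GW.wZip_thm hZip
  have hM : wMark := Pool.Agent.Helper44.GW.wMark_thm hMet hLn
  have hF : wForget := Pool.Agent.Helper11.GW.wForget_thm hLn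
  have hJ : wJoin := Pool.Agent.Helper11.GW.wJoin_thm hLn
  have hT : wTwo := Pool.Agent.Helper11.GW.wTwo_thm hMet hLn
  exact ⟨stSTART_of hT, stGZ_of hLn hRot hA hZ hM hF hJ h2 hS, stFIN_of hLn hRot hA hZ hF h2 hS⟩

end Pool.Agent.Helper42.GW
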