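import Pool.Agent.Helper42.GW.Gap
import Pool.Agent.Helper9.GP.PwSt
import Pool.Agent.Helper13.GP.Cyc2

/-!
# Gilbert-Pollak, chapter COR: the rules START, GZ, FIN
-/

set_option autoImplicit false

namespace Pool.Agent.Helper42.GW

open Pool.Agent.Helper18.GP Pool.Agent.Helper62.GP Relation Classical

/-- item of a word of `PwSt` -/
def cv (p : ℂ × Option ℝ) : It := ⟨p.1, p.2, true, false⟩

lemma ofQ {w : List It} {c : ℝ} (hm : ∀ i ∈ w, i.m = true) (h : Q w c 0) :
    Pw (w.map fun i => (i.p, i.a)) c := by
  obtain ⟨N, V, G, P, B₁, B₂, tri, st, hB₁, hB₂, F, l1, l2⟩ := h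
  refine ⟨N, V, G, P, V.sort (· ≤ ·), tri, st, by simp, V.sort_nodup _, ?_, ?_, ?_⟩
  · have hs := V.sortedLT_sort.pairwise
    rw [List.triplewise_iff_getElem]
    intro i j k hij hjk hk
    have h1 := List.pairwise_iff_getElem.1 hs i j (by omega) (by omega) hij
    have h2 := List.pairwise_iff_getElem.1 hs j k (by omega) hk hjk
    rw [Pool.Agent.Helper13.GP.Ccw_iff]
    simp only [Fin.lt_def] at h1 h2
    omega
  · rw [List.forall₂_map_right_iff]
    exact F.imp fun a b hab => ⟨hab.1, hab.2.1⟩
  · have : B₁ = V := by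
      refine Finset.Subset.antisymm hB₁ fun v hv => ?_
      have hv' : v ∈ V.sort (· ≤ ·) := by simpa using hv
      obtain ⟨i, hi, hi2⟩ : ∃ i ∈ w, OKI V G P B₁ B₂ v i := by
        clear l1 l2
        generalize V.sort (· ≤ ·) = LL at F hv'
        induction F with
        | nil => simp at hv'
        | cons h1 h2 ih =>
            rcases List.mem_cons.1 hv' with rfl | h
            · exact ⟨_, List.mem_cons_self, h1⟩
            · obtain ⟨i, hi, hi2⟩ := ih (fun i hi => hm i (List.mem_cons_of_mem _ hi)) h
              exact ⟨i, List.mem_cons_of_mem _ hi, hi2⟩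
      exact hi2.2.2.1.2 (hm i hi)
    rw [← this]
    simpa [this] using l1

lemma split_cyc {N : ℕ} {L : List (Fin N)} (hne : L ≠ []) (hnd : L.Nodup)
    (hc : L.Triplewise Ccw) : ∃ L₁ L₂, L = L₁ ++ L₂ ∧ (L₂ ++ L₁).Pairwise (· < ·) := by
  obtain ⟨b, hb, hmin⟩ : ∃ b ∈ L, ∀ x ∈ L, b ≤ x := by
    have : L.toFinset.Nonempty := by
      obtain ⟨x, hx⟩ := List.exists_mem_of_ne_nil L hne
      exact ⟨x, by simpa using hx⟩
    refine ⟨L.toFinset.min' this, by simpa using L.toFinset.min'_mem this, fun x hx => ?_⟩
    exact L.toFinset.min'_le x (by simpa using hx)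
  obtain ⟨L₁, L₂, rfl⟩ := List.append_of_mem hb
  have hlt : ∀ x ∈ L₁ ++ L₂, b < x := by
    intro x hx
    refine lt_of_le_of_ne (hmin x ?_) ?_
    · simp only [List.mem_append, List.mem_cons] at hx ⊢; tauto
    · rintro rfl
      rw [List.nodup_append] at hnd
      obtain ⟨-, n2, n3⟩ := hnd
      rcases List.mem_append.1 hx with h | h
      · exact n3 _ h _ (by simp) rfl
      · exact (List.nodup_cons.1 n2).1 h
  have h1 : ∀ x ∈ L₁, b < x := fun x hx => hlt x (List.mem_append_left _ hx)
  have h2 : ∀ x ∈ L₂, b < x := fun x hx => hlt x (List.mem_append_right _ hx)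
  rw [List.triplewise_append] at hc
  obtain ⟨-, c2, c3, c4⟩ := hc
  refine ⟨L₁, b :: L₂, rfl, ?_⟩
  rw [List.pairwise_append, List.pairwise_cons]
  refine ⟨⟨h2, ?_⟩, ?_, ?_⟩
  · have := (List.triplewise_cons.1 c2).1
    refine this.imp_of_mem fun {x y} hx hy hxy => ?_
    have := h2 x hx
    have := h2 y hy
    rw [Pool.Agent.Helper13.GP.Ccw_iff] at hxy
    simp only [Fin.lt_def] at *
    omega
  · have := c4 b (by simp)
    refine this.imp_of_mem fun {x y} hx hy hxy => ?_
    have := h1 x hx
    have := h1 y hy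
    rw [Pool.Agent.Helper13.GP.Ccw_iff] at hxy
    simp only [Fin.lt_def] at *
    omega
  · intro y hy x hx
    rcases List.mem_cons.1 hy with rfl | hy
    · exact h1 x hx
    · have := (List.pairwise_cons.1 (c3 x hx)).1 y hy
      have := h2 y hy
      have := h1 x hx
      rw [Pool.Agent.Helper13.GP.Ccw_iff] at *
      simp only [Fin.lt_def] at *
      omega

private lemma f2_append {α β : Type} {R : α → β → Prop} : ∀ (L₁ L₂ : List α) (w : List β),
    List.Forall₂ R (L₁ ++ L₂) w → ∃ w₁ w₂, List.Forall₂ R L₁ w₁ ∧ List.Forall₂ R L₂ w₂ ∧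
      w = w₁ ++ w₂ := by
  intro L₁
  induction L₁ with
  | nil => intro L₂ w h; exact ⟨[], w, List.Forall₂.nil, h, rfl⟩
  | cons x L₁ ih =>
      intro L₂ w h
      cases h with
      | cons h1 h2 =>
          obtain ⟨w₁, w₂, h3, h4, rfl⟩ := ih _ _ h2
          exact ⟨_ :: w₁, w₂, List.Forall₂.cons h1 h3, h4, rfl⟩

lemma om_eq : Pool.Agent.Helper18.GP.om = Pool.Agent.Helper62.GP.om := rfl

lemma toQ (hLn : stLnP) (hRot : wRot) {w : Wd} {c : ℝ} (hne : w ≠ []) (h : Pw w c) :
    Q (w.map cv) c 0 := by
  obtain ⟨N, V, G, P, L, R⟩ := h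
  have hL : L ≠ [] := by
    rintro rfl
    have := R.fit
    rw [List.forall₂_nil_left_iff] at this
    exact hne this
  obtain ⟨L₁, L₂, rfl, hp⟩ := split_cyc hL R.nodup R.cyc
  have hsort : V.sort (· ≤ ·) = L₂ ++ L₁ := by
    refine V.sortedLT_sort.eq_of_mem_iff hp.sortedLT ?_
    intro a
    rw [Finset.mem_sort, R.mem, List.mem_append, List.mem_append, or_comm]
  obtain ⟨w₁, w₂, hw1, hw2, rfl⟩ := f2_append _ _ _ R.fit
  rw [List.map_append]
  apply hRot
  have hP := hLn N V G P R.tri
  refine ⟨N, V, G, P, V, ∅, R.tri, R.st, subset_rfl, Finset.empty_subset _, ?_, R.ln, ?_⟩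
  · rw [hsort, ← List.map_append, List.forall₂_map_right_iff]
    have : List.Forall₂ (fun v (p : ℂ × Option ℝ) => P v = p.1 ∧
        ∀ al, p.2 = some al → Pool.Agent.Helper62.GP.ang V G P v = al) (L₂ ++ L₁) (w₂ ++ w₁) :=
      List.rel_append hw2 hw1
    have hmem : ∀ v ∈ L₂ ++ L₁, v ∈ V := by
      intro v hv
      rw [R.mem]
      rw [List.mem_append] at hv ⊢
      exact hv.symm
    clear hsort hp
    generalize L₂ ++ L₁ = LL at this hmem
    generalize w₂ ++ w₁ = ww at this
    induction this with
    | nil => exact List.Forall₂.nil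
    | cons h1 h2 ih =>
        refine List.Forall₂.cons ⟨h1.1, h1.2, ?_, ?_⟩ (ih fun v hv =>
          hmem v (List.mem_cons_of_mem _ hv))
        · simp [cv, hmem _ List.mem_cons_self]
        · simp [cv]
  · obtain ⟨a, ha⟩ := List.exists_mem_of_ne_nil _ hL
    have haV := (R.mem a).2 ha
    have h1 := hP.mono {a} (Finset.singleton_subset_iff.2 haV) ∅ (Finset.empty_subset _)
    have h2 := hP.sing a haV
    linarith

/-- hex chains as functions -/
lemma hx_fun : ∀ (L : List ℂ) (d : ℂ), Hx d L → ∃ l : ℕ → ℝ, ∀ i, i + 1 < L.length →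
    0 < l i ∧ L.getD (i + 1) 0 = L.getD i 0 + l i * (d * Pool.Agent.Helper62.GP.om ^ i) := by
  intro L
  induction L with
  | nil => intro d _; exact ⟨fun _ => 0, fun i hi => by simp at hi⟩
  | cons x L ih =>
      intro d h
      cases L with
      | nil => exact ⟨fun _ => 0, fun i hi => by simp at hi⟩
      | cons y L =>
          obtain ⟨⟨l0, hl0, hy⟩, h2⟩ := h
          obtain ⟨l, hl⟩ := ih _ h2
          refine ⟨fun i => if i = 0 then l0 else l (i - 1), fun i hi => ?_⟩
          cases i with
          | zero =>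
              simp only [if_true]
              refine ⟨hl0, ?_⟩
              simp [hy]
          | succ i =>
              have := hl i (by simpa using hi)
              refine ⟨by simpa using this.1, ?_⟩
              have h3 := this.2
              simp only [List.getD_cons_succ] at h3 ⊢
              rw [h3]
              simp only [Nat.succ_ne_zero, if_false, Nat.add_sub_cancel]
              rw [pow_succ, om_eq]
              ring

lemma gapL (hAdd : wAdd) (h2 : stAnAdd2) (hS : stAnSign) (hFg : wForget) {d q g e : ℂ}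
    {B : List ℂ} (hH : HC d (q :: (B ++ [g, e]))) (β : ℝ) (m n : Bool) (rest : List It)
    (em en : Bool) (c₁ c₂ : ℝ) (h : Q (⟨g, some β, m, n⟩ :: rest ++ [⟨e, none, em, en⟩]) c₁ c₂) :
    Q (B.map (fun p => (⟨p, some (2 * Real.pi / 3), false, false⟩ : It)) ++
      ⟨g, some (β + 2 * Real.pi / 3), m, n⟩ :: rest ++
      [⟨e, none, em, en⟩, ⟨q, none, false, false⟩]) c₁ c₂ := by
  obtain ⟨l, hl⟩ := hx_fun _ _ hH.hx
  set Ls := q :: (B ++ [g, e]) with hLs
  have hlen : Ls.length = B.length + 3 := by simp [hLs]
  have w0 : Ls.getD 0 0 = q := by simp [hLs]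
  have wk : Ls.getD (B.length + 1) 0 = g := by
    simp [hLs]
  have wk1 : Ls.getD (B.length + 1 + 1) 0 = e := by
    simp [hLs]
  have key := gap (k := B.length + 1) (w := fun i => Ls.getD i 0) (l := l) (d := d) hAdd h2 hS hFg
    (by omega) hH.ne (fun i hi => (hl i (by omega)).1) (fun i hi => (hl i (by omega)).2) ?_ β m n
    rest em en c₁ c₂ (by simpa only [wk, wk1] using h)
  · simp only [wk, wk1, w0, Nat.add_sub_cancel] at key
    have : (List.range B.length).map (fun i => (⟨Ls.getD (i + 1) 0, some (2 * Real.pi / 3), false,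
        false⟩ : It)) = B.map (fun p => (⟨p, some (2 * Real.pi / 3), false, false⟩ : It)) := by
      apply List.ext_getElem
      · simp
      · intro i h1 h2
        have hi : i < B.length := by simpa using h1
        simp [hLs, List.getElem?_append_left hi, hi]
    rw [this] at key
    exact key
  · intro i j hij hj
    have hgi : ∀ i, (hi : i < Ls.length) → Ls.getD i 0 = Ls[i] := by
      intro i hi; simp [List.getD_eq_getElem?_getD, hi]
    have hlt : (Ls.zip Ls.tail).length = B.length + 2 := by simp [hlen]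
    have hp := List.pairwise_iff_getElem.1 hH.pw i j (by rw [hlt]; omega) (by rw [hlt]; omega)
      (by omega)
    simp only [List.getElem_zip, List.getElem_tail] at hp
    rw [Set.disjoint_left]
    intro z hz1 hz2
    simp only [hgi i (by omega), hgi (i + 1) (by omega), hgi j (by omega),
      hgi (j + 1) (by omega)] at hz1 hz2
    have hh := hp z hz1 hz2
    have nd := hH.nodup
    have inj : ∀ a b (ha : a < Ls.length) (hb : b < Ls.length), Ls[a] = Ls[b] → a = b := by
      intro a b ha hb hab
      exact (List.Nodup.getElem_inj_iff nd).1 hab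
    rcases hh with ⟨h1 | h1, h2 | h2⟩ <;> rw [h1] at h2 <;> have := inj _ _ _ _ h2 <;> omega

/-- all zips -/
lemma zips (hZip : wZip) : ∀ (D : List ℂ) (X T : List It) (y : ℂ) (o o' : Option ℝ) (c : ℂ)
    (m1 n1 m2 n2 mc nc : Bool) (c₁ c₂ : ℝ),
    Q (X ++ ⟨y, o, m1, n1⟩ :: (D.reverse.map (fun p => (⟨p, some (2 * Real.pi / 3), false, false⟩ : It))
      ++ ⟨c, some (2 * Real.pi), mc, nc⟩ ::
      (D.map (fun p => (⟨p, some (4 * Real.pi / 3), true, false⟩ : It)) ++ ⟨y, o', m2, n2⟩ :: T)))
      c₁ c₂ →
    Q (X ++ ⟨y, oadd o o', m1 || m2, n1 || n2⟩ :: T) c₁ c₂ := by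
  intro D
  induction D with
  | nil =>
      intro X T y o o' c m1 n1 m2 n2 mc nc c₁ c₂ h
      have := hZip ⟨y, o, m1, n1⟩ ⟨c, some (2 * Real.pi), mc, nc⟩ ⟨y, o', m2, n2⟩ X T c₁ c₂
        (by simpa using h) rfl rfl
      simpa [It.add] using this
  | cons x D ih =>
      intro X T y o o' c m1 n1 m2 n2 mc nc c₁ c₂ h
      have := hZip ⟨x, some (2 * Real.pi / 3), false, false⟩ ⟨c, some (2 * Real.pi), mc, nc⟩
        ⟨x, some (4 * Real.pi / 3), true, false⟩
        (X ++ ⟨y, o, m1, n1⟩ :: D.reverse.map (fun p => (⟨p, some (2 * Real.pi / 3), false, false⟩ : It)))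
        (D.map (fun p => (⟨p, some (4 * Real.pi / 3), true, false⟩ : It)) ++ ⟨y, o', m2, n2⟩ :: T)
        c₁ c₂ (by simpa using h) rfl rfl
      apply ih X T y o o' x m1 n1 m2 n2 true false c₁ c₂
      have e : (2 * Real.pi / 3 + 4 * Real.pi / 3 : ℝ) = 2 * Real.pi := by ring
      simpa [It.add, oadd, e] using this

lemma plen_eq : ∀ L : List ℂ, plen L = pl L := by
  intro L
  induction L with
  | nil => rfl
  | cons x L ih =>
      cases L with
      | nil => rfl
      | cons y L => simp only [plen, pl]; rw [ih]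

theorem stSTART_of (hTwo : wTwo) : stSTART := by
  intro x y _
  have := ofQ (by simp) (hTwo x y)
  simpa using this

theorem stGZ_of (hLn : stLnP) (hRot : wRot) (hAdd : wAdd) (hZip : wZip) (hMark : wMark)
    (hFg : wForget) (hJoin : wJoin) (h2 : stAnAdd2) (hS : stAnSign) : stGZ := by
  intro C A y e q al c R d hH h
  have hQ := toQ hLn hRot (by simp) h
  -- after the gap and the marks
  obtain ⟨w, hw, hm⟩ : ∃ w : List It, Q w c (plen (q :: (A ++ [y]))) ∧
      w = A.map (fun p => (⟨p, some (2 * Real.pi / 3), false, true⟩ : It)) ++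
        ⟨y, some (al + 2 * Real.pi / 3), true, true⟩ :: (R.map cv ++
        [⟨e, none, true, false⟩, ⟨q, none, false, true⟩]) := by
    refine ⟨_, ?_, rfl⟩
    cases C with
    | nil =>
        have g1 := gapL hAdd h2 hS hFg (d := d) (q := q) (g := y) (e := e) (B := A)
          (by simpa using hH) al true false (R.map cv) true false c 0 (by simpa [cv] using hQ)
        have g2 := hMark (A.map (fun p => (⟨p, some (2 * Real.pi / 3), false, false⟩ : It)) ++
          [⟨y, some (al + 2 * Real.pi / 3), true, false⟩]) (R.map cv ++ [⟨e, none, true, false⟩])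
          ⟨q, none, false, false⟩ c (by simp) (by
            intro i hi
            simp [cv] at hi
            rcases hi with ⟨_, _, rfl⟩ | rfl | ⟨_, _, _, rfl⟩ | rfl | rfl <;> rfl)
          (by simpa using g1)
        simpa [Function.comp_def] using g2
    | cons c1 C =>
        have g1 := gapL hAdd h2 hS hFg (d := d) (q := q) (g := c1) (e := e)
          (B := A ++ y :: C.reverse) (by simpa using hH) (4 * Real.pi / 3) true false
          (C.map (fun p => (⟨p, some (4 * Real.pi / 3), true, false⟩ : It)) ++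
            ⟨y, some al, true, false⟩ :: R.map cv) true false c 0
          (by simpa [cv, Function.comp_def] using hQ)
        have g2 := hMark (A.map (fun p => (⟨p, some (2 * Real.pi / 3), false, false⟩ : It)) ++
          [⟨y, some (2 * Real.pi / 3), false, false⟩])
          (C.reverse.map (fun p => (⟨p, some (2 * Real.pi / 3), false, false⟩ : It)) ++
            ⟨c1, some (4 * Real.pi / 3 + 2 * Real.pi / 3), true, false⟩ ::
            (C.map (fun p => (⟨p, some (4 * Real.pi / 3), true, false⟩ : It)) ++
            ⟨y, some al, true, false⟩ :: (R.map cv ++ [⟨e, none, true, false⟩])))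
          ⟨q, none, false, false⟩ c (by simp) (by
            intro i hi
            simp [cv] at hi
            rcases hi with ⟨_, _, rfl⟩ | rfl | ⟨_, _, rfl⟩ | rfl | ⟨_, _, rfl⟩ | rfl |
              ⟨_, _, _, rfl⟩ | rfl | rfl <;> rfl)
          (by simpa using g1)
        have g3 := zips hZip C (A.map (fun p => (⟨p, some (2 * Real.pi / 3), false, true⟩ : It)))
          (R.map cv ++ [⟨e, none, true, false⟩, ⟨q, none, false, true⟩]) y
          (some (2 * Real.pi / 3)) (some al) c1 false true true false true false c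
          (plen (q :: (A ++ [y]))) (by
            have e1 : (4 * Real.pi / 3 + 2 * Real.pi / 3 : ℝ) = 2 * Real.pi := by ring
            simpa [Function.comp_def, e1] using g2)
        simpa [oadd, add_comm] using g3
  subst hm
  have hJ := hJoin _ _ _ (by
    refine ⟨⟨y, some (al + 2 * Real.pi / 3), true, true⟩, ?_, rfl, rfl⟩
    simp) hw
  have := ofQ (by
    intro i hi
    simp only [List.map_append, List.map_cons, List.map_map, List.mem_append, List.mem_cons,
      List.mem_map, Function.comp] at hi
    rcases hi with ⟨p, -, rfl⟩ | rfl | ⟨p, -, rfl⟩ | rfl | rfl | h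
    · rfl
    · rfl
    · rfl
    · rfl
    · rfl
    · simp at h) hJ
  rw [plen_eq] at this
  simpa [Function.comp_def, cv] using this

theorem stFIN_of (hLn : stLnP) (hRot : wRot) (hAdd : wAdd) (hZip : wZip)
    (hFg : wForget) (h2 : stAnAdd2) (hS : stAnSign) : stFIN := by
  intro C x e c R d hH h
  have hQ := toQ hLn hRot (by simp) h
  suffices hh : Q (R.map cv ++ [⟨e, none, true, false⟩, ⟨x, none, true, false⟩]) c 0 by
    have := ofQ (by
      intro i hi
      simp only [List.mem_append, List.mem_cons, List.mem_map] at hi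
      rcases hi with ⟨p, -, rfl⟩ | rfl | rfl | h
      · rfl
      · rfl
      · rfl
      · simp at h) hh
    simpa [Function.comp_def, cv] using this
  cases C with
  | nil =>
      have := hRot [⟨x, none, true, false⟩] (R.map cv ++ [⟨e, none, true, false⟩]) c 0
        (by simpa [cv] using hQ)
      simpa using this
  | cons c1 C =>
      have g1 := gapL hAdd h2 hS hFg (d := d) (q := x) (g := c1) (e := e)
        (B := C.reverse) (by simpa using hH) (4 * Real.pi / 3) true false
        (C.map (fun p => (⟨p, some (4 * Real.pi / 3), true, false⟩ : It)) ++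
          ⟨x, none, true, false⟩ :: R.map cv) true false c 0
        (by simpa [cv, Function.comp_def] using hQ)
      have e1 : (4 * Real.pi / 3 + 2 * Real.pi / 3 : ℝ) = 2 * Real.pi := by ring
      rw [e1] at g1
      have g2 := hRot (C.reverse.map (fun p => (⟨p, some (2 * Real.pi / 3), false, false⟩ : It)) ++
          ⟨c1, some (2 * Real.pi), true, false⟩ ::
          (C.map (fun p => (⟨p, some (4 * Real.pi / 3), true, false⟩ : It)) ++
          ⟨x, none, true, false⟩ :: (R.map cv ++ [⟨e, none, true, false⟩])))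
          [⟨x, none, false, false⟩] c 0 (by simpa using g1)
      have g3 := zips hZip C [] (R.map cv ++ [⟨e, none, true, false⟩]) x none none c1 false false
        true false true false c 0 (by simpa using g2)
      have g4 := hRot [⟨x, none, true, false⟩] (R.map cv ++ [⟨e, none, true, false⟩]) c 0
        (by simpa [oadd] using g3)
      simpa using g4

end Pool.Agent.Helper42.GW
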