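import Pool.Agent.Helper42.GW.St
import Pool.Agent.Helper62.GP.LJ2

/-!
# Gilbert-Pollak, chapter COR: the gap rule
-/

set_option autoImplicit false

namespace Pool.Agent.Helper42.GW

open Pool.Agent.Helper18.GP Pool.Agent.Helper62.GP Relation Classical

private lemma crs_smul_left (c : ℝ) (z w : ℂ) : crs ((c : ℂ) * z) w = c * crs z w := by
  simp only [crs, Complex.mul_re, Complex.mul_im, Complex.ofReal_re, Complex.ofReal_im]
  ring

private lemma crs_smul_right (c : ℝ) (z w : ℂ) : crs z ((c : ℂ) * w) = c * crs z w := by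
  simp only [crs, Complex.mul_re, Complex.mul_im, Complex.ofReal_re, Complex.ofReal_im]
  ring

private lemma crs_cyc (a b c : ℂ) : crs (b - a) (c - a) = crs (c - b) (a - b) := by
  simp only [crs, Complex.sub_re, Complex.sub_im]
  ring

private lemma ne_of_crs1 {x y z : ℂ} (h : 0 < crs (y - x) (z - x)) : y ≠ x := by
  rintro rfl
  simp [crs] at h

private lemma ne_of_crs2 {x y z : ℂ} (h : 0 < crs (y - x) (z - x)) : z ≠ x := by
  rintro rfl
  simp [crs] at h

private lemma an_add (h2 : stAnAdd2) (hS : stAnSign) {x y1 y2 y3 : ℂ} (hy : y1 ≠ x)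
    (h : 0 ≤ an x y1 y2 ∧ an x y1 y2 < Real.pi) (h23 : 0 < crs (y2 - x) (y3 - x))
    (h13 : 0 ≤ an x y1 y3) : an x y1 y2 + an x y2 y3 = an x y1 y3 := by
  have n2 := ne_of_crs1 h23
  have n3 := ne_of_crs2 h23
  have s := (hS x y2 y3 n2 n3).2.2 h23
  exact (h2 x y1 y2 y3 hy n2 n3 h.1 h.2 s.1.le s.2 h13).symm

private lemma an_pos (hS : stAnSign) {x y z : ℂ} (h : 0 < crs (y - x) (z - x)) :
    0 ≤ an x y z ∧ an x y z < Real.pi := by
  have := (hS x y z (ne_of_crs1 h) (ne_of_crs2 h)).2.2 h
  exact ⟨this.1.le, this.2⟩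

private lemma om_ne : om ≠ 0 := by
  intro h
  have := congrArg Complex.re h
  simp [om] at this

private lemma arg_om2 : Complex.arg (om ^ 2) = 2 * Real.pi / 3 := by
  have h1 : om ^ 2 = ((Real.cos (2 * Real.pi / 3) : ℝ) : ℂ) +
      ((Real.sin (2 * Real.pi / 3) : ℝ) : ℂ) * Complex.I := by
    have e : 2 * Real.pi / 3 = Real.pi - Real.pi / 3 := by ring
    rw [e, Real.cos_pi_sub, Real.sin_pi_sub, Real.cos_pi_div_three, Real.sin_pi_div_three]
    have h3 : Real.sqrt 3 * Real.sqrt 3 = 3 := Real.mul_self_sqrt (by norm_num)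
    apply Complex.ext
    · simp only [om, pow_two, Complex.mul_re, Complex.add_re, Complex.ofReal_re, Complex.I_re,
        Complex.ofReal_im, Complex.I_im]
      nlinarith [h3]
    · simp only [om, pow_two, Complex.mul_im, Complex.add_im, Complex.ofReal_re, Complex.I_re,
        Complex.ofReal_im, Complex.I_im]
      ring
  rw [h1, Complex.ofReal_cos, Complex.ofReal_sin]
  apply Complex.arg_cos_add_sin_mul_I
  constructor
  · linarith [Real.pi_pos]
  · linarith [Real.pi_pos]

variable {k : ℕ} {d : ℂ} {l : ℕ → ℝ} {w : ℕ → ℂ}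

private lemma an_turn (hd : d ≠ 0) (hl : ∀ i ≤ k, 0 < l i)
    (hw : ∀ i ≤ k, w (i + 1) = w i + l i * (d * om ^ i)) {s : ℕ} (hs : s + 1 ≤ k) :
    an (w (s + 1)) (w (s + 2)) (w s) = 2 * Real.pi / 3 := by
  unfold an
  have h1 := hw s (by omega)
  have h2 := hw (s + 1) hs
  have e1 : w s - w (s + 1) = - ((l s : ℂ) * (d * om ^ s)) := by rw [h1]; ring
  have e2 : w (s + 2) - w (s + 1) = (l (s + 1) : ℂ) * (d * om ^ (s + 1)) := by
    rw [show s + 2 = s + 1 + 1 from rfl, h2]; ring
  have p1 := hl s (by omega)
  have p2 := hl (s + 1) hs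
  have ho := om_ne
  have h3 : (Real.sqrt 3 : ℝ) * Real.sqrt 3 = 3 := Real.mul_self_sqrt (by norm_num)
  have ho3 : om ^ 3 = -1 := by
    apply Complex.ext
    · simp only [om, pow_succ, pow_zero, one_mul, Complex.mul_re, Complex.mul_im, Complex.neg_re,
        Complex.one_re]
      linear_combination (-3 / 8) * h3
    · simp only [om, pow_succ, pow_zero, one_mul, Complex.mul_re, Complex.mul_im, Complex.neg_im,
        Complex.one_im]
      linear_combination (-(Real.sqrt 3) / 8) * h3
  have e3 : (w s - w (s + 1)) / (w (s + 2) - w (s + 1)) =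
      ((l s / l (s + 1) : ℝ) : ℂ) * om ^ 2 := by
    rw [e1, e2]
    have l2 : (l (s + 1) : ℂ) ≠ 0 := by exact_mod_cast p2.ne'
    rw [div_eq_iff (by
      refine mul_ne_zero l2 (mul_ne_zero hd (pow_ne_zero _ ho)))]
    push_cast
    rw [pow_succ]
    field_simp
    linear_combination (-(l s : ℂ) * om ^ s) * ho3
  rw [e3, Complex.arg_real_mul _ (div_pos p1 p2), arg_om2]

/-- items of the finished part -/
private noncomputable def itm (w : ℕ → ℂ) (k : ℕ) (β : ℝ) (m n : Bool) (a : ℝ) (i : ℕ) : It :=
  if i = k then ⟨w k, some (β + a), m, n⟩ else ⟨w i, some a, false, false⟩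

private noncomputable def FF (w : ℕ → ℂ) (k : ℕ) (β : ℝ) (m n : Bool) : ℕ → List It
  | 0 => []
  | j + 1 => itm w k β m n (2 * Real.pi / 3) (k - j) :: FF w k β m n j

private lemma itm_add {β : ℝ} {m n : Bool} {a b : ℝ} {i : ℕ} :
    (⟨(itm w k β m n a i).p, oadd (itm w k β m n a i).a (some b), (itm w k β m n a i).m,
      (itm w k β m n a i).n⟩ : It) = itm w k β m n (a + b) i := by
  unfold itm
  split_ifs with h
  · simp [oadd, add_assoc]
  · simp [oadd]

private lemma itm_p {β : ℝ} {m n : Bool} {a : ℝ} {i : ℕ} : (itm w k β m n a i).p = w i := by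
  unfold itm
  split_ifs with h
  · simp [h]
  · simp

private lemma FF_eq (β : ℝ) (m n : Bool) : ∀ j, j + 1 ≤ k →
    FF w k β m n (j + 1) = (List.range j).map (fun i => (⟨w (i + (k - j)), some (2 * Real.pi / 3),
      false, false⟩ : It)) ++ [⟨w k, some (β + 2 * Real.pi / 3), m, n⟩] := by
  intro j
  induction j with
  | zero =>
      intro _
      simp [FF, itm]
  | succ j ih =>
      intro hj
      rw [FF, ih (by omega)]
      have : itm w k β m n (2 * Real.pi / 3) (k - (j + 1)) =
          ⟨w (0 + (k - (j + 1))), some (2 * Real.pi / 3), false, false⟩ := by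
        unfold itm
        rw [if_neg (by omega)]
        simp
      rw [this, List.range_succ_eq_map, List.map_cons, List.map_map, List.cons_append]
      congr 2
      apply List.map_congr_left
      intro i hi
      have hi' := List.mem_range.1 hi
      simp only [Function.comp]
      rw [show Nat.succ i + (k - (j + 1)) = i + (k - j) by omega]

/-- **the gap rule** -/
theorem gap (hAdd : wAdd) (h2 : stAnAdd2) (hS : stAnSign) (hFg : wForget) (hk : 1 ≤ k)
    (hd : d ≠ 0) (hl : ∀ i ≤ k, 0 < l i) (hw : ∀ i ≤ k, w (i + 1) = w i + l i * (d * om ^ i))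
    (hnc : ∀ i j, i + 2 ≤ j → j ≤ k →
      Disjoint (segment ℝ (w i) (w (i + 1))) (segment ℝ (w j) (w (j + 1))))
    (β : ℝ) (m n : Bool) (rest : List It) (em en : Bool) (c₁ c₂ : ℝ)
    (h : Q (⟨w k, some β, m, n⟩ :: rest ++ [⟨w (k + 1), none, em, en⟩]) c₁ c₂) :
    Q ((List.range (k - 1)).map (fun i => (⟨w (i + 1), some (2 * Real.pi / 3), false, false⟩ : It)) ++
      ⟨w k, some (β + 2 * Real.pi / 3), m, n⟩ :: rest ++
      [⟨w (k + 1), none, em, en⟩, ⟨w 0, none, false, false⟩]) c₁ c₂ := by
  obtain ⟨t, ht1, htk, F1, F2, F3⟩ := LJ hk hd hl hw hnc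
  -- edge directions
  have ed : ∀ s ≤ k, w (s + 1) - w s = (l s : ℂ) * (d * om ^ s) := by
    intro s hs; rw [hw s hs]; ring
  have G1 : ∀ s, 1 ≤ s → s ≤ t → 0 < crs (w (s + 1) - w s) (w 0 - w s) := by
    intro s h1 h2
    have := F1 s h1 h2
    rw [ed s (by omega), crs_smul_left]
    have hh : crs (d * om ^ s) (w 0 - w s) = crs (w s - w 0) (d * om ^ s) := by
      simp only [crs, Complex.sub_re, Complex.sub_im]; ring
    rw [hh]
    exact mul_pos (hl s (by omega)) this
  have G2 : ∀ s, t ≤ s + 1 → s + 1 ≤ k → 0 < crs (w (s + 1) - w s) (w (k + 1) - w s) := by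
    intro s h1 h2
    rw [ed s (by omega), crs_smul_left]
    exact mul_pos (hl s (by omega)) (F2 s h1 h2)
  -- first phase
  have P1 : ∀ j, j ≤ k - t → Q (itm w k β m n (an (w (k - j)) (w (k - j + 1)) (w (k + 1))) (k - j) ::
      (FF w k β m n j ++ rest) ++ [⟨w (k + 1), none, em, en⟩]) c₁ c₂ := by
    intro j
    induction j with
    | zero =>
        intro _
        have e : itm w k β m n (an (w (k - 0)) (w (k - 0 + 1)) (w (k + 1))) (k - 0) =
            ⟨w k, some β, m, n⟩ := by
          unfold itm
          have hne : w (k + 1) - w k ≠ 0 := by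
            rw [ed k le_rfl]
            exact mul_ne_zero (by exact_mod_cast (hl k le_rfl).ne')
              (mul_ne_zero hd (pow_ne_zero _ om_ne))
          have : an (w k) (w (k + 1)) (w (k + 1)) = 0 := by
            unfold an
            rw [div_self hne, Complex.arg_one]
          simp [this]
        rw [e]
        simpa [FF] using h
    | succ j ih =>
        intro hj
        have hQ := ih (by omega)
        obtain ⟨s, hs⟩ : ∃ s, k - j = s + 1 := ⟨k - j - 1, by omega⟩
        have hs' : k - (j + 1) = s := by omega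
        rw [hs', FF, hs]
        rw [hs] at hQ
        have tri : 0 < crs (w (s + 1) - w s) (w (k + 1) - w s) := G2 s (by omega) (by omega)
        have tri2 : 0 < crs (w s - w (k + 1)) (w (s + 1) - w (k + 1)) := by
          have e : crs (w s - w (k + 1)) (w (s + 1) - w (k + 1)) =
              crs (w (s + 1) - w s) (w (k + 1) - w s) := by
            simp only [crs, Complex.sub_re, Complex.sub_im]; ring
          rw [e]
          exact tri
        have key := (hAdd _ _ _ _ _ (w s) hQ (by rw [itm_p]; exact tri2)).1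
        rw [itm_p] at key
        have e1 : (⟨w (s + 1), oadd (itm w k β m n (an (w (s + 1)) (w (s + 1 + 1)) (w (k + 1)))
            (s + 1)).a (some (an (w (s + 1)) (w (k + 1)) (w s))),
            (itm w k β m n (an (w (s + 1)) (w (s + 1 + 1)) (w (k + 1))) (s + 1)).m,
            (itm w k β m n (an (w (s + 1)) (w (s + 1 + 1)) (w (k + 1))) (s + 1)).n⟩ : It) =
            itm w k β m n (2 * Real.pi / 3) (s + 1) := by
          have := itm_add (w := w) (k := k) (β := β) (m := m) (n := n)
            (a := an (w (s + 1)) (w (s + 1 + 1)) (w (k + 1)))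
            (b := an (w (s + 1)) (w (k + 1)) (w s)) (i := s + 1)
          rw [itm_p] at this
          rw [this]
          congr 1
          have tt := an_turn hd hl hw (s := s) (by omega)
          have h23 : 0 < crs (w (k + 1) - w (s + 1)) (w s - w (s + 1)) := by
            rw [← crs_cyc (w s) (w (s + 1)) (w (k + 1))]; exact tri
          have hy : w (s + 2) ≠ w (s + 1) := by
            intro hh
            have := ed (s + 1) (by omega)
            rw [show s + 1 + 1 = s + 2 from rfl, hh, sub_self] at this
            exact (mul_ne_zero (by exact_mod_cast (hl (s + 1) (by omega)).ne')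
              (mul_ne_zero hd (pow_ne_zero _ om_ne))) this.symm
          have h12 : 0 ≤ an (w (s + 1)) (w (s + 2)) (w (k + 1)) ∧
              an (w (s + 1)) (w (s + 2)) (w (k + 1)) < Real.pi := by
            by_cases hsk : s + 1 = k
            · have : an (w (s + 1)) (w (s + 2)) (w (k + 1)) = 0 := by
                unfold an
                rw [← hsk, div_self (sub_ne_zero.2 hy), Complex.arg_one]
              rw [this]
              exact ⟨le_rfl, Real.pi_pos⟩
            · exact an_pos hS (G2 (s + 1) (by omega) (by omega))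
          have := an_add h2 hS hy h12 h23 (by rw [tt]; positivity)
          rw [show s + 1 + 1 = s + 2 from rfl, this, tt]
        rw [e1] at key
        have e2 : itm w k β m n (an (w s) (w (s + 1)) (w (k + 1))) s =
            ⟨w s, some (an (w s) (w (s + 1)) (w (k + 1))), false, false⟩ := by
          unfold itm
          rw [if_neg (by omega)]
        rw [e2]
        simpa [oadd] using key
  -- the new leaf
  have P2 : Q (itm w k β m n (an (w t) (w (t + 1)) (w 0)) t ::
      (FF w k β m n (k - t) ++ rest) ++ [⟨w (k + 1), none, em, en⟩, ⟨w 0, none, false, false⟩])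
      c₁ c₂ := by
    have hQ := P1 (k - t) le_rfl
    rw [show k - (k - t) = t by omega] at hQ
    have tri : 0 < crs (w 0 - w (k + 1)) (w t - w (k + 1)) := by
      have e : crs (w 0 - w (k + 1)) (w t - w (k + 1)) = crs (w t - w 0) (w (k + 1) - w 0) := by
        simp only [crs, Complex.sub_re, Complex.sub_im]; ring
      rw [e]; exact F3
    have key := (hAdd _ _ _ _ _ (w 0) hQ (by rw [itm_p]; exact tri)).2
    rw [itm_p] at key
    have e1 : (⟨w t, oadd (itm w k β m n (an (w t) (w (t + 1)) (w (k + 1))) t).a
        (some (an (w t) (w (k + 1)) (w 0))),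
        (itm w k β m n (an (w t) (w (t + 1)) (w (k + 1))) t).m,
        (itm w k β m n (an (w t) (w (t + 1)) (w (k + 1))) t).n⟩ : It) =
        itm w k β m n (an (w t) (w (t + 1)) (w 0)) t := by
      have := itm_add (w := w) (k := k) (β := β) (m := m) (n := n)
        (a := an (w t) (w (t + 1)) (w (k + 1))) (b := an (w t) (w (k + 1)) (w 0)) (i := t)
      rw [itm_p] at this
      rw [this]
      congr 1
      have hy : w (t + 1) ≠ w t := ne_of_crs1 (G1 t ht1 le_rfl)
      have h23 : 0 < crs (w (k + 1) - w t) (w 0 - w t) := by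
        have e : crs (w (k + 1) - w t) (w 0 - w t) = crs (w t - w 0) (w (k + 1) - w 0) := by
          simp only [crs, Complex.sub_re, Complex.sub_im]; ring
        rw [e]; exact F3
      have h12 : 0 ≤ an (w t) (w (t + 1)) (w (k + 1)) ∧
          an (w t) (w (t + 1)) (w (k + 1)) < Real.pi := by
        by_cases htk' : t = k
        · have : an (w t) (w (t + 1)) (w (k + 1)) = 0 := by
            unfold an
            rw [← htk', div_self (sub_ne_zero.2 hy), Complex.arg_one]
          rw [this]
          exact ⟨le_rfl, Real.pi_pos⟩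
        · exact an_pos hS (G2 t (by omega) (by omega))
      exact an_add h2 hS hy h12 h23 (an_pos hS (G1 t ht1 le_rfl)).1
    rw [e1] at key
    refine hFg _ _ _ _ _ _ le_rfl le_rfl ?_ key
    rw [List.cons_append, List.cons_append]
    refine List.Forall₂.cons ⟨rfl, Or.inl rfl, id, id⟩ ?_
    refine List.rel_append (R := _) ?_ ?_
    · exact List.forall₂_same.2 fun _ _ => ⟨rfl, Or.inl rfl, id, id⟩
    · refine List.Forall₂.cons ⟨rfl, Or.inr rfl, id, id⟩ (List.Forall₂.cons
        ⟨rfl, Or.inr rfl, id, id⟩ List.Forall₂.nil)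
  -- second phase
  have P3 : ∀ j, j + 1 ≤ t → Q (itm w k β m n (an (w (t - j)) (w (t - j + 1)) (w 0)) (t - j) ::
      (FF w k β m n (k - t + j) ++ rest) ++ [⟨w (k + 1), none, em, en⟩, ⟨w 0, none, false, false⟩])
      c₁ c₂ := by
    intro j
    induction j with
    | zero => intro _; simpa using P2
    | succ j ih =>
        intro hj
        have hQ := ih (by omega)
        obtain ⟨s, hs⟩ : ∃ s, t - j = s + 1 := ⟨t - j - 1, by omega⟩
        have hs' : t - (j + 1) = s := by omega
        have hs1 : 1 ≤ s := by omega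
        rw [hs', show k - t + (j + 1) = (k - t + j) + 1 by omega, FF,
          show k - (k - t + j) = s + 1 by omega]
        rw [hs] at hQ
        have tri : 0 < crs (w (s + 1) - w s) (w 0 - w s) := G1 s hs1 (by omega)
        have tri2 : 0 < crs (w s - w 0) (w (s + 1) - w 0) := by
          have e : crs (w s - w 0) (w (s + 1) - w 0) = crs (w (s + 1) - w s) (w 0 - w s) := by
            simp only [crs, Complex.sub_re, Complex.sub_im]; ring
          rw [e]; exact tri
        have hQ' : Q (itm w k β m n (an (w (s + 1)) (w (s + 1 + 1)) (w 0)) (s + 1) ::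
            (FF w k β m n (k - t + j) ++ rest ++ [⟨w (k + 1), none, em, en⟩]) ++
            [⟨w 0, none, false, false⟩]) c₁ c₂ := by
          simpa using hQ
        have key := (hAdd _ _ _ _ _ (w s) hQ' (by rw [itm_p]; exact tri2)).1
        rw [itm_p] at key
        have e1 : (⟨w (s + 1), oadd (itm w k β m n (an (w (s + 1)) (w (s + 1 + 1)) (w 0))
            (s + 1)).a (some (an (w (s + 1)) (w 0) (w s))),
            (itm w k β m n (an (w (s + 1)) (w (s + 1 + 1)) (w 0)) (s + 1)).m,
            (itm w k β m n (an (w (s + 1)) (w (s + 1 + 1)) (w 0)) (s + 1)).n⟩ : It) =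
            itm w k β m n (2 * Real.pi / 3) (s + 1) := by
          have := itm_add (w := w) (k := k) (β := β) (m := m) (n := n)
            (a := an (w (s + 1)) (w (s + 1 + 1)) (w 0))
            (b := an (w (s + 1)) (w 0) (w s)) (i := s + 1)
          rw [itm_p] at this
          rw [this]
          congr 1
          have tt := an_turn hd hl hw (s := s) (by omega)
          have h12' := G1 (s + 1) (by omega) (by omega)
          have h23 : 0 < crs (w 0 - w (s + 1)) (w s - w (s + 1)) := by
            rw [← crs_cyc (w s) (w (s + 1)) (w 0)]; exact tri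
          have := an_add h2 hS (ne_of_crs1 h12') (an_pos hS h12') h23
            (by rw [show s + 1 + 1 = s + 2 from rfl, tt]; positivity)
          rw [this, show s + 1 + 1 = s + 2 from rfl, tt]
        rw [e1] at key
        have e2 : itm w k β m n (an (w s) (w (s + 1)) (w 0)) s =
            ⟨w s, some (an (w s) (w (s + 1)) (w 0)), false, false⟩ := by
          unfold itm
          rw [if_neg (by omega)]
        rw [e2]
        simpa [oadd] using key
  have hQ := P3 (t - 1) (by omega)
  rw [show t - (t - 1) = 1 by omega, show k - t + (t - 1) = k - 1 by omega] at hQ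
  have tt := an_turn hd hl hw (s := 0) (by omega)
  rw [show (1 : ℕ) + 1 = 0 + 2 from rfl, show (1 : ℕ) = 0 + 1 from rfl, tt] at hQ
  have e : itm w k β m n (2 * Real.pi / 3) (0 + 1) :: (FF w k β m n (k - (0 + 1)) ++ rest) =
      FF w k β m n (k - 1 + 1) ++ rest := by
    rw [FF, show k - (k - 1) = 0 + 1 by omega, show k - (0 + 1) = k - 1 by omega]
    rfl
  rw [e, FF_eq β m n (k - 1) (by omega), show k - (k - 1) = 1 by omega] at hQ
  simpa using hQ

end Pool.Agent.Helper42.GW
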