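import Pool.Agent.Helper62.GP.StZ

/-!
# Gilbert-Pollak, chapter COR: word level rules (helper42)

A word is the list of the vertices of a positive triangulated polygon in increasing order of the
labels, with positions, angles (or none) and two marks. `Q w c₁ c₂`: such a polygon exists, the
vertices with mark `m` have Steiner length at most `c₁`, the ones with mark `n` at most `c₂`.
-/

set_option autoImplicit false

namespace Pool.Agent.Helper42.GW

open Pool.Agent.Helper18.GP Pool.Agent.Helper62.GP Relation Classical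

/-- a vertex: position, angle (if known), two marks -/
structure It where
  p : ℂ
  a : Option ℝ
  m : Bool
  n : Bool

/-- sum of angles, if both are known -/
noncomputable def oadd : Option ℝ → Option ℝ → Option ℝ
  | some a, some b => some (a + b)
  | _, _ => none

/-- merge of two items at the same position -/
noncomputable def It.add (i j : It) : It := ⟨i.p, oadd i.a j.a, i.m || j.m, i.n || j.n⟩

/-- the vertex `v` is described by the item `i` -/
def OKI {N : ℕ} (V : Finset (Fin N)) (G : SimpleGraph (Fin N)) (P : Fin N → ℂ)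
    (B₁ B₂ : Finset (Fin N)) (v : Fin N) (i : It) : Prop :=
  P v = i.p ∧ (∀ α, i.a = some α → ang V G P v = α) ∧ (v ∈ B₁ ↔ i.m = true) ∧
    (v ∈ B₂ ↔ i.n = true)

/-- there is a polygon with the word `w` -/
def Q (w : List It) (c₁ c₂ : ℝ) : Prop := ∃ (N : ℕ) (V : Finset (Fin N)) (G : SimpleGraph (Fin N))
  (P : Fin N → ℂ) (B₁ B₂ : Finset (Fin N)), IsTri V G ∧ St V G P ∧ B₁ ⊆ V ∧ B₂ ⊆ V ∧
  List.Forall₂ (OKI V G P B₁ B₂) (V.sort (· ≤ ·)) w ∧ Ln V G P B₁ ≤ c₁ ∧ Ln V G P B₂ ≤ c₂

/-- **wRel.** relabelling which respects the cyclic order. Proof. `G' = ` the graph with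
`G'.Adj x y` iff there are `a, b ∈ V` with `f a = x`, `f b = y`, `G.Adj a b`; `P' x = P a` if
`f a = x`, `a ∈ V` (0 otherwise). `Ccw (f a) (f b) (f c) ↔ Ccw a b c` for `a, b, c ∈ V` (if `¬ Ccw a b c`
and all different then `Ccw a c b`), so `IsTri`, `St` and the angle sums are transported
(`Finset.sum_bij`). `Ln`: `Θ x w = ∑ v ∈ V with f v = w, x v` maps `Pts V G` to `Pts V' G'`, keeps
`dev` and `Sh`, so chains go to chains of the same length, `dK' (Θ x) (Θ y) ≤ dK x y`
(attained, `MetP.att`, and `csInf_le`, bounded below by 0), `Θ (dl v) = dl (f v)`; a network for `B`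
(`LnP.att`) goes to a network for the image. -/
def wRel : Prop := ∀ (N N' : ℕ) (V : Finset (Fin N)) (G : SimpleGraph (Fin N)) (P : Fin N → ℂ)
  (f : Fin N → Fin N'), IsTri V G → St V G P → (∀ a ∈ V, ∀ b ∈ V, f a = f b → a = b) →
  (∀ a ∈ V, ∀ b ∈ V, ∀ c ∈ V, Ccw a b c → Ccw (f a) (f b) (f c)) →
  ∃ (G' : SimpleGraph (Fin N')) (P' : Fin N' → ℂ), IsTri (V.image f) G' ∧ St (V.image f) G' P' ∧
    (∀ v ∈ V, P' (f v) = P v) ∧ (∀ v ∈ V, ang (V.image f) G' P' (f v) = ang V G P v) ∧
    ∀ B ⊆ V, Ln (V.image f) G' P' (B.image f) ≤ Ln V G P B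

/-- **wRot.** (uses wRel) rotation of words. Proof. The sorted list of `V` is `l₁ ++ l₂` with
`l₁`, `l₂` the labels of `u`, `v` (`List.forall₂_append` or take/drop); there is a label `b` with
`l₁ < b ≤ l₂` (or one of the lists is empty: nothing to do). `f x = x + N` if `x < b`, `f x = x` if
`b ≤ x`, to `Fin (2 N)`. The sorted list of `V.image f` is `l₂.map f ++ l₁.map f`
(`List.eq_of_perm_of_sorted`). -/
def wRot : Prop := ∀ (u v : List It) (c₁ c₂ : ℝ), Q (u ++ v) c₁ c₂ → Q (v ++ u) c₁ c₂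

/-- **wAdd.** (uses wRel) a new vertex `z` in front of the first vertex `x` or behind the last vertex
`e`. Proof. wRel with `f i = i + 1`, `Fin N → Fin (N + 2)`, then `stAdd` with the label `0` resp. `N + 1`,
`q` = label of `e`, `a` = label of `x`. `B₁`, `B₂` are mapped. -/
def wAdd : Prop := ∀ (x e : It) (w : List It) (c₁ c₂ : ℝ) (z : ℂ), Q (x :: w ++ [e]) c₁ c₂ →
  0 < crs (z - e.p) (x.p - e.p) →
  Q (⟨z, some (an z x.p e.p), false, false⟩ :: ⟨x.p, oadd x.a (some (an x.p e.p z)), x.m, x.n⟩ :: w ++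
    [⟨e.p, oadd e.a (some (an e.p z x.p)), e.m, e.n⟩]) c₁ c₂ ∧
  Q (⟨x.p, oadd x.a (some (an x.p e.p z)), x.m, x.n⟩ :: w ++
    [⟨e.p, oadd e.a (some (an e.p z x.p)), e.m, e.n⟩, ⟨z, some (an z x.p e.p), false, false⟩]) c₁ c₂

/-- **wZip.** the zip for words. Proof. `stZip`; the sorted list of `zV V s u'` is the sorted list of
`V` without `s` and `u'`; new sets: the images in `stZip`. -/
def wZip : Prop := ∀ (u s u' : It) (A B : List It) (c₁ c₂ : ℝ), Q (A ++ u :: s :: u' :: B) c₁ c₂ →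
  u.p = u'.p → s.a = some (2 * Real.pi) → Q (A ++ u.add u' :: B) c₁ c₂

/-- length of a path -/
noncomputable def plen : List ℂ → ℝ
  | [] => 0
  | [_] => 0
  | x :: y :: l => ‖x - y‖ + plen (y :: l)

/-- **wMark.** mark a path along the boundary: the last vertex `q` and the vertices of `A` in front
(cyclically consecutive). Proof. Cyclically consecutive vertices are adjacent (`bdAdj` of
Helper13/GP/Comb.lean), so `Ln V G P {u, v} ≤ ‖P u - P v‖` (network with one pair, `MetP.sh`); `LnP.sub`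
and induction along the path. -/
def wMark : Prop := ∀ (A R : List It) (q : It) (c₁ : ℝ), A ≠ [] →
  (∀ i ∈ A ++ R ++ [q], i.n = false) → Q (A ++ R ++ [q]) c₁ 0 →
  Q (A.map (fun i => ⟨i.p, i.a, i.m, true⟩) ++ R ++ [⟨q.p, q.a, q.m, true⟩]) c₁
    (plen (q.p :: A.map It.p))

/-- **wForget.** forget angles and marks, increase costs. Proof. `LnP.mono`. -/
def wForget : Prop := ∀ (w w' : List It) (c₁ c₂ c₁' c₂' : ℝ), c₁ ≤ c₁' → c₂ ≤ c₂' →
  List.Forall₂ (fun i j : It => j.p = i.p ∧ (j.a = i.a ∨ j.a = none) ∧ (j.m = true → i.m = true) ∧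
    (j.n = true → i.n = true)) w w' → Q w c₁ c₂ → Q w' c₁' c₂'

/-- **wJoin.** unite the two networks. Proof. `LnP.sub`. -/
def wJoin : Prop := ∀ (w : List It) (c₁ c₂ : ℝ), (∃ i ∈ w, i.m = true ∧ i.n = true) → Q w c₁ c₂ →
  Q (w.map fun i => ⟨i.p, i.a, i.m || i.n, false⟩) (c₁ + c₂) 0

/-- **wTwo.** the polygon with two vertices. Proof. `N = 2`, `V = univ`, `G = ⊤`. There are no
triangles; `Ln V G P univ ≤ ‖x - y‖` (network with one pair); `Ln ∅ = 0`. -/
def wTwo : Prop := ∀ x y : ℂ, Q [⟨y, some 0, true, false⟩, ⟨x, none, true, false⟩] ‖x - y‖ 0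

end Pool.Agent.Helper42.GW
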